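import Mathlib

/-!
# Tubes and Kakeya sets in the Euclidean space: definitions only
-/

set_option autoImplicit false

namespace Pool.Agent.H94.FDF

/-- The Euclidean norm. -/
noncomputable def nm {n : ℕ} (x : EuclideanSpace ℝ (Fin n)) : ℝ := ‖x‖

/-- The scalar product. -/
noncomputable def ip {n : ℕ} (x y : EuclideanSpace ℝ (Fin n)) : ℝ := inner ℝ x y

/-- The difference of two vectors. -/
noncomputable def diff {n : ℕ} (x y : EuclideanSpace ℝ (Fin n)) : EuclideanSpace ℝ (Fin n) :=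
  x - y

/-- The Lebesgue measure. -/
noncomputable def leb (n : ℕ) : MeasureTheory.Measure (EuclideanSpace ℝ (Fin n)) :=
  MeasureTheory.volume

/-- The Lebesgue measure of a set. -/
noncomputable def vol {n : ℕ} (s : Set (EuclideanSpace ℝ (Fin n))) : ENNReal := leb n s

/-- The norm of `L ^ q`. -/
noncomputable def lq {n : ℕ} (q : ℝ) (f : EuclideanSpace ℝ (Fin n) → ℝ) : ENNReal :=
  MeasureTheory.eLpNorm f (ENNReal.ofReal q) (leb n)

/-- The Borel sets. -/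
def Meas {n : ℕ} (s : Set (EuclideanSpace ℝ (Fin n))) : Prop := MeasurableSet s

/-- The Hausdorff dimension. -/
noncomputable def hdim {n : ℕ} (s : Set (EuclideanSpace ℝ (Fin n))) : ENNReal := dimH s

/-- The tube of length `1`, radius `δ`, centre `c` and axis direction `e`. -/
def tube {n : ℕ} (δ : ℝ) (c e : EuclideanSpace ℝ (Fin n)) : Set (EuclideanSpace ℝ (Fin n)) :=
  {x | |ip (diff x c) e| ≤ 1 / 2 ∧ nm (diff (diff x c) (ip (diff x c) e • e)) ≤ δ}

/-- The number of tubes which contain the point `x`. -/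
noncomputable def mult {n N : ℕ} (δ : ℝ) (c e : Fin N → EuclideanSpace ℝ (Fin n))
    (x : EuclideanSpace ℝ (Fin n)) : ℝ :=
  ∑ i, (tube δ (c i) (e i)).indicator (fun _ => (1 : ℝ)) x

/-- The directions are unit vectors and `δ`-separated. -/
def Dirs {n N : ℕ} (δ : ℝ) (e : Fin N → EuclideanSpace ℝ (Fin n)) : Prop :=
  (∀ i, nm (e i) = 1) ∧ ∀ i j, i ≠ j → δ ≤ nm (diff (e i) (e j))

/-- At most `M (r / δ) ^ 3` directions of the family are at distance at most `r` from one of them,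
for all `r ≥ δ`. -/
def Spread {n N : ℕ} (δ M : ℝ) (e : Fin N → EuclideanSpace ℝ (Fin n)) : Prop :=
  ∀ i, ∀ r : ℝ, δ ≤ r →
    (({j | nm (diff (e j) (e i)) ≤ r} : Set (Fin N)).ncard : ℝ) ≤ M * (r / δ) ^ 3

/-- Off a part `N ^ (-θ)` of the mass at most `C N ^ s` tubes meet at a point, and the inequality
of Q1 holds for all real `q ≥ q₀`. -/
def Off {n N : ℕ} (d : ℕ) (θ s q₀ C δ : ℝ) (c e : Fin N → EuclideanSpace ℝ (Fin n)) : Prop :=
  ∃ G : Set (EuclideanSpace ℝ (Fin n)), Meas G ∧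
    ∑ i, vol (tube δ (c i) (e i) \ G) ≤
      ENNReal.ofReal ((N : ℝ) ^ (-θ)) * ∑ i, vol (tube δ (c i) (e i)) ∧
    (∀ x ∈ G, mult δ c e x ≤ C * (N : ℝ) ^ s) ∧
    ∀ q : ℝ, q₀ ≤ q → lq q (G.indicator (mult δ c e)) ≤
      ENNReal.ofReal (C * (δ ^ ((d : ℝ) / q) * (N : ℝ) ^ (1 - 1 / (q * d))))

/-- The tubes cover volume at least `C⁻¹ N ^ s δ ^ d`. -/
def Union {n N : ℕ} (d : ℕ) (s C δ : ℝ) (c e : Fin N → EuclideanSpace ℝ (Fin n)) : Prop :=
  ENNReal.ofReal (C⁻¹ * ((N : ℝ) ^ s * δ ^ d)) ≤ vol (⋃ i, tube δ (c i) (e i))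

/-- A measurable set which contains at least the part `lam` of each tube has volume at least
`C⁻¹ lam ^ P N ^ s δ ^ d`. -/
def Dense {n N : ℕ} (d : ℕ) (P s C δ : ℝ) (c e : Fin N → EuclideanSpace ℝ (Fin n)) : Prop :=
  ∀ lam : ℝ, 0 < lam → lam ≤ 1 → ∀ X : Set (EuclideanSpace ℝ (Fin n)), Meas X →
    (∀ i, ENNReal.ofReal lam * vol (tube δ (c i) (e i)) ≤ vol (X ∩ tube δ (c i) (e i))) →
    ENNReal.ofReal (C⁻¹ * lam ^ P * ((N : ℝ) ^ s * δ ^ d)) ≤ vol X

/-- `K` contains a unit segment in the direction `e`. -/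
def HasSegment {n : ℕ} (K : Set (EuclideanSpace ℝ (Fin n))) (e : EuclideanSpace ℝ (Fin n)) :
    Prop :=
  ∃ x : EuclideanSpace ℝ (Fin n), ∀ t : ℝ, 0 ≤ t → t ≤ 1 → x + t • e ∈ K

/-- `K` contains a unit segment in every direction. -/
def IsKakeya {n : ℕ} (K : Set (EuclideanSpace ℝ (Fin n))) : Prop :=
  ∀ e, nm e = 1 → HasSegment K e

end Pool.Agent.H94.FDF
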